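import Mathlib

namespace Pool.Agent.Results.MP_67c3d0_lc.NormalForm

/-- A programmed grammar without appearance checking over terminals `T`. -/
structure PG (T : Type) where
  N : Type
  Ψ : Type
  finN : Finite N
  finΨ : Finite Ψ
  S : N
  lhs : Ψ → N
  rhs : Ψ → List (N ⊕ T)
  σ : Ψ → Set Ψ

def Step {T : Type} (G : PG T) (x y : List (G.N ⊕ T) × G.Ψ) : Prop :=
  ∃ u₁ u₂, x.1 = u₁ ++ Sum.inl (G.lhs x.2) :: u₂ ∧ y.1 = u₁ ++ G.rhs x.2 ++ u₂ ∧ y.2 ∈ G.σ x.2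

def lang {T : Type} (G : PG T) : Set (List T) :=
  {w | ∃ p q, Relation.ReflTransGen (Step G) ([Sum.inl G.S], p) (w.map Sum.inr, q)}

def Propagating {T : Type} (G : PG T) : Prop := ∀ r, G.rhs r ≠ []

def OneND {T : Type} (G : PG T) : Prop :=
  ∀ r r', (G.σ r).Nontrivial → (G.σ r').Nontrivial → r = r'

section
variable {T : Type}

def Reach (G : PG T) (v : List (G.N ⊕ T)) (q : G.Ψ) : Prop :=
  ∃ p, Relation.ReflTransGen (Step G) ([Sum.inl G.S], p) (v, q)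

theorem Reach.step {G : PG T} {u₁ u₂ : List (G.N ⊕ T)} {r q : G.Ψ}
    (h : Reach G (u₁ ++ Sum.inl (G.lhs r) :: u₂) r) (hq : q ∈ G.σ r) :
    Reach G (u₁ ++ G.rhs r ++ u₂) q :=
  let ⟨p, h⟩ := h; ⟨p, h.tail ⟨u₁, u₂, rfl, rfl, hq⟩⟩

inductive N' (N Ψ T : Type)
  | S | X | Y (a b : N ⊕ T) (r : Ψ) | old (A : N)

inductive L' (N Ψ T : Type)
  | c | init (r q : Ψ) (a b : N ⊕ T) | one (t : T) | last (a b : N ⊕ T) (r q : Ψ)
  | fA (a b : N ⊕ T) (r q : Ψ) | fB (r : Ψ) | mA (a b : N ⊕ T) (r q : Ψ) | mB (r : Ψ)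
  | eA (t t' : T) (r : Ψ) | eB (t : T)

theorem finN' (N Ψ T : Type) [Finite N] [Finite Ψ] [Finite T] : Finite (N' N Ψ T) := by
  refine Finite.of_surjective (α := Bool ⊕ ((N ⊕ T) × (N ⊕ T) × Ψ) ⊕ N)
    (Sum.elim (fun b => if b then .S else .X) (Sum.elim (fun x => .Y x.1 x.2.1 x.2.2) .old)) ?_
  rintro (_ | _ | ⟨a, b, r⟩ | A)
  exacts [⟨.inl true, rfl⟩, ⟨.inl false, rfl⟩, ⟨.inr (.inl (a, b, r)), rfl⟩, ⟨.inr (.inr A), rfl⟩]

theorem finL' (N Ψ T : Type) [Finite N] [Finite Ψ] [Finite T] : Finite (L' N Ψ T) := by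
  refine Finite.of_surjective
    (α := Unit ⊕ (Fin 4 × (N ⊕ T) × (N ⊕ T) × Ψ × Ψ) ⊕ (Bool × T) ⊕ (Bool × Ψ) ⊕ (T × T × Ψ))
    (Sum.elim (fun _ => .c) (Sum.elim (fun ⟨i, a, b, r, q⟩ => if i = 0 then .init r q a b
      else if i = 1 then .last a b r q else if i = 2 then .fA a b r q else .mA a b r q)
      (Sum.elim (fun x => if x.1 then .one x.2 else .eB x.2)
      (Sum.elim (fun x => if x.1 then .fB x.2 else .mB x.2) fun x => .eA x.1 x.2.1 x.2.2)))) ?_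
  rintro (_ | ⟨r, q, a, b⟩ | t | ⟨a, b, r, q⟩ | ⟨a, b, r, q⟩ | r | ⟨a, b, r, q⟩ | r | ⟨t, t', r⟩ | t)
  exacts [⟨.inl (), rfl⟩, ⟨.inr (.inl (0, a, b, r, q)), rfl⟩, ⟨.inr (.inr (.inl (true, t))), rfl⟩,
    ⟨.inr (.inl (1, a, b, r, q)), rfl⟩, ⟨.inr (.inl (2, a, b, r, q)), rfl⟩,
    ⟨.inr (.inr (.inr (.inl (true, r)))), rfl⟩, ⟨.inr (.inl (3, a, b, r, q)), rfl⟩,
    ⟨.inr (.inr (.inr (.inl (false, r)))), rfl⟩, ⟨.inr (.inr (.inr (.inr (t, t', r)))), rfl⟩,
    ⟨.inr (.inr (.inl (false, t))), rfl⟩]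

def enc {N Ψ : Type} : N ⊕ T → N' N Ψ T ⊕ T := Sum.map .old id

def Chk {N Ψ : Type} : L' N Ψ T → Prop
  | .last .. => True
  | .fA .. => True
  | .mA .. => True
  | .eA .. => True
  | _ => False

def lhs' (G : PG T) : L' G.N G.Ψ T → N' G.N G.Ψ T
  | .c => .X
  | .init .. => .S
  | .one _ => .S
  | .last a _ r _ => .Y a (.inl (G.lhs r)) r
  | .fA _ b r _ => .Y (.inl (G.lhs r)) b r
  | .fB _ => .X
  | .mA a b r _ => .Y a b r
  | .mB r => .old (G.lhs r)
  | .eA t t' r => .Y (.inr t) (.inr t') r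
  | .eB _ => .X

def rhs' (G : PG T) : L' G.N G.Ψ T → List (N' G.N G.Ψ T ⊕ T)
  | .c => [.inl .X]
  | .init r q a b => .inl .X :: ((G.rhs r).tail.dropLast.map enc ++ [.inl (.Y a b q)])
  | .one t => [.inr t]
  | .last a b r q => (G.rhs r).dropLast.map enc ++ [.inl (.Y a b q)]
  | .fA a b _ q => [.inl (.Y a b q)]
  | .fB r => .inl .X :: (G.rhs r).tail.map enc
  | .mA a b _ q => [.inl (.Y a b q)]
  | .mB r => (G.rhs r).map enc
  | .eA _ t' _ => [.inr t']
  | .eB t => [.inr t]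

def σ' (G : PG T) : L' G.N G.Ψ T → Set (L' G.N G.Ψ T)
  | .c => {l | Chk l}
  | .init r q a b => {l | l = .c ∧ Reach G (a :: ((G.rhs r).tail.dropLast ++ [b])) q}
  | .one t => {l | l = .c ∧ ∃ q, Reach G [.inr t] q}
  | .last _ b r q => {l | l = .c ∧ q ∈ G.σ r ∧ G.rhs r = (G.rhs r).dropLast ++ [b]}
  | .fA a _ r q => {l | l = .fB r ∧ q ∈ G.σ r ∧ G.rhs r = a :: (G.rhs r).tail}
  | .fB _ => {.c}
  | .mA _ _ r q => {l | l = .mB r ∧ q ∈ G.σ r}
  | .mB _ => {.c}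
  | .eA t _ _ => {.eB t}
  | .eB _ => {.c}

@[reducible] def nf [Finite T] (G : PG T) : PG T :=
  haveI := G.finN
  haveI := G.finΨ
  ⟨N' G.N G.Ψ T, L' G.N G.Ψ T, finN' _ _ _, finL' _ _ _, .S, lhs' G, rhs' G, σ' G⟩

theorem split_aux {α β : Type} (f : α → β) (x y : β) : ∀ (m : List α) (u₁ u₂ : List β),
    m.map f ++ [x] = u₁ ++ y :: u₂ → (∃ m₁ a m₂, m = m₁ ++ a :: m₂ ∧ u₁ = m₁.map f ∧ y = f a ∧
      u₂ = m₂.map f ++ [x]) ∨ (u₁ = m.map f ∧ y = x ∧ u₂ = [])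
  | [], [], u₂, h => Or.inr (by simp at h; simp [h])
  | [], _ :: _, u₂, h => by simp at h
  | a :: m, [], u₂, h => Or.inl ⟨[], a, m, by simp at h; simp [h]⟩
  | a :: m, b :: u₁, u₂, h => by
    simp only [List.map_cons, List.cons_append, List.cons.injEq] at h
    rcases split_aux f x y m u₁ u₂ h.2 with ⟨m₁, c, m₂, rfl, rfl, h3, h4⟩ | ⟨rfl, h2, h3⟩
    · exact Or.inl ⟨a :: m₁, c, m₂, rfl, by simp [h.1], h3, h4⟩
    · exact Or.inr ⟨by simp [h.1], h2, h3⟩

theorem split {α β : Type} {f : α → β} {x₀ x y : β} {m : List α} {u₁ u₂ : List β}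
    (h : x₀ :: (m.map f ++ [x]) = u₁ ++ y :: u₂) :
    (u₁ = [] ∧ y = x₀ ∧ u₂ = m.map f ++ [x]) ∨
    (∃ m₁ a m₂, m = m₁ ++ a :: m₂ ∧ u₁ = x₀ :: m₁.map f ∧ y = f a ∧ u₂ = m₂.map f ++ [x]) ∨
    (u₁ = x₀ :: m.map f ∧ y = x ∧ u₂ = []) := by
  cases u₁ with
  | nil => left; simp at h; simp [h]
  | cons b u₁ =>
    simp only [List.cons_append, List.cons.injEq] at h
    rcases split_aux f x y m u₁ u₂ h.2 with ⟨m₁, c, m₂, rfl, rfl, h3, h4⟩ | ⟨rfl, h2, h3⟩
    · exact Or.inr (Or.inl ⟨m₁, c, m₂, rfl, by simp [h.1], h3, h4⟩)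
    · exact Or.inr (Or.inr ⟨by simp [h.1], h2, h3⟩)

inductive Inv (G : PG T) : List (N' G.N G.Ψ T ⊕ T) → L' G.N G.Ψ T → Prop
  | start (l) : Inv G [.inl .S] l
  | main (l a b m r) : l = .c ∨ Chk l → Reach G (a :: (m ++ [b])) r →
      Inv G (.inl .X :: (m.map enc ++ [.inl (.Y a b r)])) l
  | f (a b m r q) : Reach G (.inl (G.lhs r) :: (m ++ [b])) r → q ∈ G.σ r →
      G.rhs r = a :: (G.rhs r).tail →
      Inv G (.inl .X :: (m.map enc ++ [.inl (.Y a b q)])) (.fB r)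
  | m (a b m r q) : Reach G (a :: (m ++ [b])) r → q ∈ G.σ r →
      Inv G (.inl .X :: (m.map enc ++ [.inl (.Y a b q)])) (.mB r)
  | e (t t' m r) : Reach G (.inr t :: (m ++ [.inr t'])) r →
      Inv G (.inl .X :: (m.map enc ++ [.inr t'])) (.eB t)
  | done (v r) : Reach G v r → Inv G (v.map enc) .c

theorem enc_X {N Ψ : Type} (a : N ⊕ T) : (Sum.inl .X : N' N Ψ T ⊕ T) ≠ enc a := by
  cases a <;> simp [enc]

theorem enc_Y {N Ψ : Type} (a b c : N ⊕ T) (r : Ψ) :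
    (Sum.inl (.Y b c r) : N' N Ψ T ⊕ T) ≠ enc a := by
  cases a <;> simp [enc]

theorem inv_step [Finite T] {G : PG T} {x y : List ((nf G).N ⊕ T) × (nf G).Ψ}
    (h : Inv G x.1 x.2) (hs : Step (nf G) x y) : Inv G y.1 y.2 := by
  obtain ⟨u, l⟩ := x
  obtain ⟨v, l'⟩ := y
  obtain ⟨u₁, u₂, h1, h2, h3⟩ := hs
  simp only at h h1 h2 h3 ⊢
  subst h2
  cases h with
  | start =>
    obtain ⟨rfl, h4, rfl⟩ : u₁ = [] ∧ lhs' G l = .S ∧ u₂ = [] := by
      cases u₁ <;> simp_all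
    cases l <;> simp [lhs'] at h4
    · obtain ⟨rfl, h5⟩ := h3
      simpa [rhs'] using Inv.main .c _ _ _ _ (Or.inl rfl) h5
    · obtain ⟨rfl, q, h5⟩ := h3
      exact Inv.done _ q h5
  | main _ a b m r hl hr =>
    rcases hl with rfl | hl
    · rcases split h1 with ⟨rfl, -, rfl⟩ | ⟨_, _, _, _, _, h, _⟩ | ⟨_, h, _⟩
      · exact Inv.main _ _ _ _ _ (Or.inr h3) hr
      · exact absurd h (enc_X _)
      · simp [lhs'] at h
    · cases l <;> simp only [Chk] at hl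
      all_goals
        rcases split h1 with ⟨_, h, _⟩ | ⟨_, _, _, _, _, h, _⟩ | ⟨rfl, h, rfl⟩
        · simp [lhs'] at h
        · exact absurd h (enc_Y _ _ _ _)
        simp only [lhs', Sum.inl.injEq, N'.Y.injEq] at h
        obtain ⟨rfl, rfl, rfl⟩ := h
      · obtain ⟨rfl, h4, h5⟩ := h3
        have := Reach.step (u₁ := _ :: m) (u₂ := []) hr h4
        rw [h5] at this
        have k := Inv.main .c _ _ (m ++ _) _ (Or.inl rfl) (by simpa using this)
        rw [List.map_append, List.append_assoc] at k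
        simpa only [rhs', List.cons_append, List.append_nil, List.append_assoc] using k
      · obtain ⟨rfl, h4, h5⟩ := h3
        simpa [rhs'] using Inv.f _ _ m _ _ hr h4 h5
      · obtain ⟨rfl, h4⟩ := h3
        simpa [rhs'] using Inv.m _ _ m _ _ hr h4
      · obtain rfl := h3
        simpa [rhs'] using Inv.e _ _ m _ hr
  | f a b m r q hr hq h5 =>
    obtain rfl := h3
    rcases split h1 with ⟨rfl, -, rfl⟩ | ⟨_, _, _, _, _, h, _⟩ | ⟨_, h, _⟩
    · have := Reach.step (u₁ := []) hr hq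
      rw [h5] at this
      simpa only [rhs', List.map_append, List.cons_append, List.nil_append, List.append_assoc]
        using Inv.main .c a b (_ ++ m) _ (Or.inl rfl) (by simpa using this)
    · exact absurd h (enc_X _)
    · simp [lhs'] at h
  | m a b m r q hr hq =>
    obtain rfl := h3
    rcases split h1 with ⟨_, h, _⟩ | ⟨m₁, c, m₂, rfl, rfl, h, rfl⟩ | ⟨_, h, _⟩
    · simp [lhs'] at h
    · obtain rfl : c = .inl (G.lhs r) := by
        cases c <;> simp_all [lhs', enc]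
      have := Reach.step (u₁ := a :: m₁) (u₂ := m₂ ++ [b]) (by simpa using hr) hq
      simpa [rhs'] using Inv.main .c a b (m₁ ++ G.rhs r ++ m₂) _ (Or.inl rfl) (by simpa using this)
    · simp [lhs'] at h
  | e t t' m r hr =>
    obtain rfl := h3
    rcases split h1 with ⟨rfl, -, rfl⟩ | ⟨_, _, _, _, _, h, _⟩ | ⟨_, h, _⟩
    · simpa [rhs', enc] using Inv.done _ _ hr
    · exact absurd h (enc_X _)
    · simp [lhs'] at h
  | done v r hr =>
    have : (Sum.inl .X : N' G.N G.Ψ T ⊕ T) ∈ v.map enc := by rw [h1]; simp [lhs']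
    obtain ⟨a, -, ha⟩ := List.mem_map.1 this
    exact absurd ha.symm (enc_X _)

theorem sim [Finite T] {G : PG T} (hG : Propagating G) {p : G.Ψ} {y : List (G.N ⊕ T) × G.Ψ}
    (h : Relation.ReflTransGen (Step G) ([Sum.inl G.S], p) y) :
    (∃ a, y.1 = [a]) ∨ ∃ a m b, y.1 = a :: (m ++ [b]) ∧
      Reach (nf G) (.inl .X :: (m.map enc ++ [.inl (.Y a b y.2)])) .c := by
  induction h with
  | refl => exact Or.inl ⟨_, rfl⟩
  | @tail x y h hs ih =>
    have hy : Reach G y.1 y.2 := ⟨p, h.tail hs⟩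
    obtain ⟨u, r⟩ := x
    obtain ⟨v, q⟩ := y
    obtain ⟨u₁, u₂, h1, h2, h3⟩ := hs
    simp only at h1 h2 h3 ih hy ⊢
    subst h2
    obtain ⟨a', w, e1⟩ := List.exists_cons_of_ne_nil (hG r)
    obtain ⟨w', b', e2⟩ := (List.eq_nil_or_concat' (G.rhs r)).resolve_left (hG r)
    rcases ih with ⟨a, rfl⟩ | ⟨a, m, b, rfl, hr⟩
    · obtain ⟨rfl, rfl⟩ : u₁ = [] ∧ u₂ = [] := by cases u₁ <;> simp_all
      rcases List.eq_nil_or_concat' w with rfl | ⟨w, b, rfl⟩
      · exact Or.inl ⟨a', by simp [e1]⟩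
      · refine Or.inr ⟨a', w, b, by simp [e1], .init r q a' b, Relation.ReflTransGen.single
          ⟨[], [], rfl, by simp [rhs', e1], rfl, by simpa [e1] using hy⟩⟩
    · right
      have hr' := fun l (hl : Chk l) => Reach.step (G := nf G) (u₁ := []) (r := .c) hr hl
      rw [← List.map_id m] at h1
      rcases split h1 with ⟨rfl, rfl, rfl⟩ | ⟨m₁, c, m₂, rfl, rfl, rfl, rfl⟩ | ⟨rfl, rfl, rfl⟩
      · refine ⟨a', w ++ m, b, by simp [e1], ?_⟩
        have k1 := Reach.step (G := nf G) (u₁ := .inl .X :: m.map enc) (u₂ := [])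
          (r := .fA a' b r q) (q := .fB r) (hr' _ trivial) ⟨rfl, h3, by simp [e1]⟩
        have k2 := Reach.step (G := nf G) (u₁ := []) (r := .fB r) (q := .c) k1 rfl
        simpa [rhs', e1] using k2
      · refine ⟨a, m₁ ++ G.rhs r ++ m₂, b, by simp, ?_⟩
        have k1 := Reach.step (G := nf G) (u₁ := .inl .X :: (m₁ ++ _ :: m₂).map enc) (u₂ := [])
          (r := .mA a b r q) (q := .mB r) (hr' _ trivial) ⟨rfl, h3⟩
        have k2 := Reach.step (G := nf G) (u₁ := .inl .X :: m₁.map enc)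
          (u₂ := m₂.map enc ++ [.inl (.Y a b q)]) (r := .mB r) (q := .c)
          (by simpa [rhs', lhs', enc] using k1) rfl
        simpa [rhs'] using k2
      · refine ⟨a, m ++ w', b', by simp [e2], ?_⟩
        have k1 := Reach.step (G := nf G) (u₁ := .inl .X :: m.map enc) (u₂ := [])
          (r := .last a b' r q) (q := .c) (hr' _ trivial) ⟨rfl, h3, by simp [e2]⟩
        simpa [rhs', e2] using k1

theorem map_enc {N Ψ : Type} (w : List T) :
    (w.map (Sum.inr : T → N ⊕ T)).map (enc (Ψ := Ψ)) = w.map Sum.inr := by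
  simp [enc, Function.comp_def]

end

theorem result (T : Type) [Finite T] (G : PG T) (hG : Propagating G) :
    ∃ G' : PG T, Propagating G' ∧ OneND G' ∧ lang G' = lang G := by
  refine ⟨nf G, fun l => ?_, ?_, Set.ext fun w => ⟨?_, ?_⟩⟩
  · cases l <;> simp [rhs']
    exact hG _
  · have : ∀ l, (σ' G l).Nontrivial → l = .c := by
      rintro l ⟨a, ha, b, hb, hab⟩
      cases l <;> first | rfl | exact absurd (ha.1.trans hb.1.symm) hab |
        exact absurd (Eq.trans ha (Eq.symm hb)) hab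
    exact fun r r' h h' => (this r h).trans (this r' h').symm
  · rintro ⟨p, q, h⟩
    have : ∀ y, Relation.ReflTransGen (Step (nf G)) ([Sum.inl .S], p) y → Inv G y.1 y.2 := by
      intro y hy
      induction hy with
      | refl => exact Inv.start _
      | tail _ hs ih => exact inv_step ih hs
    have h1 := this _ h
    simp only at h1
    generalize e : w.map Sum.inr = u at h1
    have hX : ∀ A z, u ≠ Sum.inl A :: z := by
      intro A z hh
      rw [← e] at hh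
      cases w <;> simp at hh
    cases h1 with
    | done v r hr =>
      have hi : Function.Injective (enc : G.N ⊕ T → N' G.N G.Ψ T ⊕ T) := by
        rintro (a | a) (b | b) h <;> simp_all [enc]
      obtain rfl : w.map Sum.inr = v := hi.list_map (by rw [map_enc, e])
      obtain ⟨p, hp⟩ := hr
      exact ⟨p, r, hp⟩
    | _ => exact absurd rfl (hX _ _)
  · rintro ⟨p, q, h⟩
    rcases sim hG h with ⟨a, ha⟩ | ⟨a, m, b, e, hr⟩
    · obtain ⟨t, rfl⟩ : ∃ t, w = [t] := List.length_eq_one_iff.1 (by simpa using congrArg List.length ha)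
      exact ⟨.one t, .c, Relation.ReflTransGen.single ⟨[], [], rfl, rfl, rfl, q, p, h⟩⟩
    · simp only at e hr
      obtain ⟨t, w, rfl, rfl, e2⟩ := List.map_eq_cons_iff.1 e
      obtain ⟨w₁, w₂, rfl, rfl, e3⟩ := List.map_eq_append_iff.1 e2
      obtain ⟨t', rfl, rfl⟩ := List.map_eq_singleton_iff.1 e3
      have k0 := Reach.step (G := nf G) (u₁ := []) (r := .c) (q := .eA t t' q) hr trivial
      have k1 := Reach.step (G := nf G) (u₁ := .inl .X :: (w₁.map Sum.inr).map enc) (u₂ := [])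
        (r := .eA t t' q) (q := .eB t) k0 rfl
      obtain ⟨p', k2⟩ := Reach.step (G := nf G) (u₁ := []) (r := .eB t) (q := .c) k1 rfl
      refine ⟨p', .c, ?_⟩
      rw [map_enc] at k2
      simpa [rhs'] using k2

end Pool.Agent.Results.MP_67c3d0_lc.NormalForm
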